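import Pool.Agent.helper26.EC.SpecE

/-! Row SWE of project EC (MP_5628fe_nt) -/

set_option autoImplicit false

namespace Pool.Agent.EC

open Finset ArithmeticFunction
open Pool.Agent.CH (Win rgh dl eU Mo ClP ClB)
open Pool.Agent.CHS (PB WUp)

private theorem SWE_tot (m : ℕ) (h : Nat.Coprime m 30) :
    (Nat.totient (30 * m) : ℝ) = 8 * (Nat.totient m : ℝ) := by
  rw [Nat.totient_mul h.symm]
  have : Nat.totient 30 = 8 := by decide
  rw [this]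
  push_cast
  ring

private theorem SWE_mt (K Q : ℝ) (l : ℕ → ℝ) (hl : Adm K Q l) :
    ∑ m ∈ Mo Q, l m * (1 / (Nat.totient (30 * m) : ℝ)) = 1 / 8 * mt Q l := by
  unfold mt Mo
  rw [sum_filter, mul_sum]
  apply sum_congr rfl
  intro m _
  by_cases hm : Nat.Coprime m 30
  · rw [if_pos hm, SWE_tot m hm]
    ring
  · rw [if_neg hm]
    have : l m = 0 := by
      by_contra hc
      exact hm (hl.2 m hc).2.1
    rw [this]
    simp

/-- One cell. -/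
private theorem SWE_cell (h4 : EXW_stmt) (N : ℕ) (hN : 2 ≤ N) (K Q E : ℝ) (l w : ℕ → ℝ) (r' : ℕ → ℕ) (hr' : ClB r')
    (hl : Adm K Q l)
    (hG : ∑ m ∈ Mo Q, |∑ j ∈ Win N with j ≡ r' m [MOD 30 * m], w j -
      1 / (Nat.totient (30 * m) : ℝ) * ∑ j ∈ Win N, w j| ≤ E) :
    ∑ m ∈ Win N with m % 30 = 7, w m * wt l (m - 6) ≤ (∑ j ∈ Win N, w j) * (1 / 8 * mt Q l) + K * E := by
  have hK : 0 ≤ K := (abs_nonneg _).trans (hl.1 0)
  have h7 : ∀ b ∈ Win N, 7 ≤ b := by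
    intro b hb
    unfold Win at hb
    rw [mem_Ioc] at hb
    have : 2 ^ 3 ≤ N ^ 3 := Nat.pow_le_pow_left hN 3
    omega
  rw [((h4.2.2 w l Q r' (Win N) (fun m hm => ⟨(hl.2 m hm).2.1, (hl.2 m hm).2.2⟩)).2 hr' h7)]
  have e1 : ∑ m ∈ Mo Q, l m * ∑ b ∈ Win N with b ≡ r' m [MOD 30 * m], w b =
      ∑ m ∈ Mo Q, l m * (1 / (Nat.totient (30 * m) : ℝ)) * (∑ j ∈ Win N, w j) +
      ∑ m ∈ Mo Q, l m * (∑ j ∈ Win N with j ≡ r' m [MOD 30 * m], w j -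
        1 / (Nat.totient (30 * m) : ℝ) * ∑ j ∈ Win N, w j) := by
    rw [← sum_add_distrib]
    apply sum_congr rfl
    intro m _
    ring
  rw [e1, ← sum_mul, SWE_mt K Q l hl]
  have e2 : ∑ m ∈ Mo Q, l m * (∑ j ∈ Win N with j ≡ r' m [MOD 30 * m], w j -
        1 / (Nat.totient (30 * m) : ℝ) * ∑ j ∈ Win N, w j) ≤ K * E := by
    calc _ ≤ ∑ m ∈ Mo Q, K * |∑ j ∈ Win N with j ≡ r' m [MOD 30 * m], w j -
        1 / (Nat.totient (30 * m) : ℝ) * ∑ j ∈ Win N, w j| := by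
          apply sum_le_sum
          intro m _
          refine (le_abs_self _).trans ?_
          rw [abs_mul]
          exact mul_le_mul_of_nonneg_right (hl.1 m) (abs_nonneg _)
      _ ≤ K * E := by
          rw [← mul_sum]
          exact mul_le_mul_of_nonneg_left hG hK
  linarith

theorem SWE (h1 : TLC_stmt) (h2 : GVT_stmt) (h3 : EDT_stmt) (h4 : EXW_stmt) (h5 : MTA_stmt) (h6 : TRB_stmt) :
    SWE_stmt := by
  intro r a b hab ε ε' K hε hε' hK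
  obtain ⟨δ₁, hδ₁, k1⟩ := h1 r a b hab
  obtain ⟨δ₀, hδ₀, k2⟩ := h3 r a b hab ε (ε' / 2) K hε (by positivity) hK
  obtain ⟨δ, hδ, hδa, hδb⟩ : ∃ δ : ℝ, 0 < δ ∧ δ ≤ δ₀ ∧ δ ≤ δ₁ :=
    ⟨min δ₀ δ₁, lt_min hδ₀ hδ₁, min_le_left _ _, min_le_right _ _⟩
  obtain ⟨n, a', b', hc, hTL⟩ := k1 δ hδ hδb
  obtain ⟨N₁, k3⟩ := k2 δ hδ hδa
  have hG := fun c : Fin n => h2 r (a' c) (b' c) (hc c).1 δ hδ (hc c).2 ε 3 hε
  choose Nc hNc using hG
  obtain ⟨r', hr'⟩ := h4.2.1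
  refine ⟨max N₁ (max (∑ c, Nc c) (max 2 ⌈Real.exp (1 + 2 * n * K / ε')⌉₊)), ?_⟩
  intro N hN l hl hpos hmt
  have hN1 : N₁ ≤ N := (le_max_left _ _).trans hN
  have hN' := (le_max_right N₁ _).trans hN
  have hN2 : ∑ c, Nc c ≤ N := (le_max_left _ _).trans hN'
  have hN'' := (le_max_right (∑ c, Nc c) _).trans hN'
  have hN3 : 2 ≤ N := (le_max_left _ _).trans hN''
  have hN4 : Real.exp (1 + 2 * n * K / ε') ≤ (N : ℝ) :=
    (Nat.le_ceil _).trans (by exact_mod_cast (le_max_right _ _).trans hN'')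
  have hNc' : ∀ c, Nc c ≤ N := fun c =>
    (single_le_sum (f := Nc) (fun i _ => Nat.zero_le _) (mem_univ c)).trans hN2
  have hN0 : (0 : ℝ) < N := by exact_mod_cast (by omega : 0 < N)
  obtain ⟨L, hLd⟩ : ∃ L : ℝ, L = Real.log N := ⟨_, rfl⟩
  have hL : 1 + 2 * n * K / ε' ≤ L := by
    rw [hLd, Real.le_log_iff_exp_le hN0]
    exact hN4
  have hq0 : 0 ≤ 2 * n * K / ε' := by positivity
  have hL1 : 1 ≤ L := by linarith
  have hL0 : 0 < L := by linarith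
  obtain ⟨Q, hQ⟩ : ∃ Q : ℝ, Q = (N : ℝ) ^ (1 / 2 - ε) := ⟨_, rfl⟩
  have k3' := k3 N hN1 l hl hpos hmt
  rw [← hQ] at hl hmt ⊢
  rw [← hLd] at hmt k3' ⊢
  have hmt0 : 0 ≤ mt Q l := h5.1 K Q l hl hpos
  have hw : ∀ m ∈ Win N, 0 ≤ fN N m * wt l (m - 6) := by
    intro m hm
    refine mul_nonneg (h6.1 N m).1 (hpos _ ?_)
    unfold Win at hm
    rw [mem_Ioc] at hm
    have : 2 ^ 3 ≤ N ^ 3 := Nat.pow_le_pow_left hN3 3
    omega
  have s1 : ∑ m ∈ Win N with m % 30 = 7, TL N a b m * fN N m * wt l (m - 6) ≤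
      ∑ m ∈ Win N with m % 30 = 7, (∑ c, TL N (a' c) (b' c) m * fN N m * wt l (m - 6) +
        TLe N a b δ m * fN N m * wt l (m - 6)) := by
    apply sum_le_sum
    intro m hm
    rw [mem_filter] at hm
    have h := (hTL N m hN3).1
    have h' := mul_le_mul_of_nonneg_right h (hw m hm.1)
    have e : ∑ c, TL N (a' c) (b' c) m * fN N m * wt l (m - 6) =
        (∑ c, TL N (a' c) (b' c) m) * (fN N m * wt l (m - 6)) := by
      rw [sum_mul]
      apply sum_congr rfl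
      intro c _
      ring
    rw [e]
    linarith
  rw [sum_add_distrib, sum_comm] at s1
  have s2 : ∀ c : Fin n, ∑ m ∈ Win N with m % 30 = 7, TL N (a' c) (b' c) m * fN N m * wt l (m - 6) ≤
      (∑ j ∈ Win N, TL N (a' c) (b' c) j * fN N j) * (1 / 8 * mt Q l) + K * ((N : ℝ) ^ 2 / L ^ 3) := by
    intro c
    have g := hNc c N (hNc' c) r' hr'
    rw [← hQ, ← hLd] at g
    exact SWE_cell h4 N hN3 K Q _ l (fun m => TL N (a' c) (b' c) m * fN N m) r' hr' hl g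
  have s3 : ∑ c : Fin n, ∑ m ∈ Win N with m % 30 = 7, TL N (a' c) (b' c) m * fN N m * wt l (m - 6) ≤
      (∑ j ∈ Win N, TL N a b j * fN N j) * (1 / 8 * mt Q l) + n * (K * ((N : ℝ) ^ 2 / L ^ 3)) := by
    refine (sum_le_sum fun c _ => s2 c).trans ?_
    rw [sum_add_distrib, sum_const, card_univ, Fintype.card_fin, nsmul_eq_mul, ← sum_mul]
    refine add_le_add_left ?_ _
    apply mul_le_mul_of_nonneg_right _ (by positivity)
    rw [sum_comm]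
    apply sum_le_sum
    intro m _
    rw [← sum_mul]
    exact mul_le_mul_of_nonneg_right (hTL N m hN3).2 (h6.1 N m).1
  have s4 : n * (K * ((N : ℝ) ^ 2 / L ^ 3)) ≤ ε' / 2 * (N : ℝ) ^ 2 / L := by
    have e1 : n * (K * ((N : ℝ) ^ 2 / L ^ 3)) = (n * K) * (N : ℝ) ^ 2 / L ^ 3 := by ring
    rw [e1, div_le_div_iff₀ (by positivity) hL0]
    have e2 : 2 * n * K / ε' ≤ L ^ 2 := by nlinarith
    have e3 : 2 * n * K ≤ L ^ 2 * ε' := by rwa [div_le_iff₀ hε'] at e2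
    have e4 : n * K ≤ ε' / 2 * L ^ 2 := by linarith
    calc (n * K) * (N : ℝ) ^ 2 * L = (n * K) * ((N : ℝ) ^ 2 * L) := by ring
      _ ≤ (ε' / 2 * L ^ 2) * ((N : ℝ) ^ 2 * L) := mul_le_mul_of_nonneg_right e4 (by positivity)
      _ = ε' / 2 * (N : ℝ) ^ 2 * L ^ 3 := by ring
  have s5 : ε' / 2 * (N : ℝ) ^ 2 / L + ε' / 2 * (N : ℝ) ^ 2 / L = ε' * (N : ℝ) ^ 2 / L := by ring
  linarith

end Pool.Agent.EC
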